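import Pool.Agent.NNe.Chk
import Pool.Agent.NNe.Slots

set_option linter.all false
set_option maxRecDepth 1000000
namespace Pool.Agent.NNr.R11_7_8_10

open Pool.Agent.NNe

noncomputable def SI0_0 : Nat := (nat_lit 0x4010040000000)
noncomputable def SW0_0 : Nat := (nat_lit 0xa004001000c002000)
noncomputable def RV0_0 : Nat := (nat_lit 0x20600818400a0880a308803b18401d182006)
noncomputable def CO0_0 : Nat := (nat_lit 0x2a80302a80202a7440269c4026542026541)
noncomputable def Y0_0_0_1 : Nat := (nat_lit 0xe000000000000000001800000000c000000006000000000)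
noncomputable def C0_0 : Cd := (Cd.mk (nat_lit 6) (nat_lit 5) (nat_lit 1280) SI0_0 SW0_0 RV0_0 CO0_0 (Sl.cons (Sd.mk (nat_lit 9) (nat_lit 8) (nat_lit 0) (nat_lit 3) (Sb.cons (nat_lit 8) (nat_lit 0) (nat_lit 3) Sb.nil) (Bl.r Y0_0_0_1 (nat_lit 1) Bl.nil)) (Sl.cons (Sd.mk (nat_lit 10) (nat_lit 8) (nat_lit 3) (nat_lit 3) (Sb.cons (nat_lit 8) (nat_lit 0) (nat_lit 3) Sb.nil) (Bl.c Y0_0_0_1 (nat_lit 6) (nat_lit 0) Bl.nil)) Sl.nil)))
noncomputable def SI0_1 : Nat := (nat_lit 0xc030080200802004010040100401004000000000000)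
noncomputable def SW0_1 : Nat := (nat_lit 0x160040050024010003008803c01c00d00380180040100060014002000)
noncomputable def RV0_1 : Nat := (nat_lit 0x880ab08801308802b18401f18200808803108805308804318402618200d18402910000008804908806f088079088082206000184000)
noncomputable def CO0_1 : Nat := (nat_lit 0x297840290c40255840255820255810251c4016ac40166440166420166410156820156800152c4012b04012744011784011003011002)
noncomputable def Y0_1_0_1 : Nat := (nat_lit 0xe00000000000000000380000000000000000fe00000000000000003080000000800000000c6000000000)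
noncomputable def Y0_1_2_3 : Nat := (nat_lit 0x180000000000000000060000000000000000018000000000000000006000000000)
noncomputable def C0_1 : Cd := (Cd.mk (nat_lit 18) (nat_lit 6) (nat_lit 336) SI0_1 SW0_1 RV0_1 CO0_1 (Sl.cons (Sd.mk (nat_lit 4) (nat_lit 4) (nat_lit 0) (nat_lit 5) (Sb.cons (nat_lit 4) (nat_lit 0) (nat_lit 3) (Sb.cons (nat_lit 8) (nat_lit 3) (nat_lit 2) Sb.nil)) (Bl.r Y0_1_0_1 (nat_lit 1) Bl.nil)) (Sl.cons (Sd.mk (nat_lit 5) (nat_lit 4) (nat_lit 5) (nat_lit 7) (Sb.cons (nat_lit 4) (nat_lit 0) (nat_lit 3) (Sb.cons (nat_lit 8) (nat_lit 3) (nat_lit 4) Sb.nil)) (Bl.c Y0_1_0_1 (nat_lit 10) (nat_lit 0) Bl.nil)) (Sl.cons (Sd.mk (nat_lit 9) (nat_lit 8) (nat_lit 12) (nat_lit 4) (Sb.cons (nat_lit 4) (nat_lit 0) (nat_lit 4) Sb.nil) (Bl.r Y0_1_2_3 (nat_lit 3) Bl.nil)) (Sl.cons (Sd.mk (nat_lit 10) (nat_lit 8) (nat_lit 16) (nat_lit 2) (Sb.cons (nat_lit 4) (nat_lit 0) (nat_lit 2) Sb.nil) (Bl.c Y0_1_2_3 (nat_lit 8) (nat_lit 2) Bl.nil)) Sl.nil)))))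
noncomputable def SI0_2 : Nat := (nat_lit 0x1405014050140501405010040100401004010040100300c0300c0300c0300c0300802008020080200802008010040100401004010040000000000000000000000)
noncomputable def SW0_2 : Nat := (nat_lit 0x1980c805602200c804001e00801880a8052021010007c03000e00380c0050027013007803a017006801805e02500e005802a00c002801000602e0168090036014005802800402c01180680260120088024002000)
noncomputable def RV0_2 : Nat := (nat_lit 0x20600918400b0880a40880ac08801408800f18400f08801108803c18401e18200708802c18402018200908803208803908802f08805408804418402718200e18402a10000108804a08805008804608807008807a08808320600118400108808908800020600318400308805a18402d0880a00880a708806018403210000408805e08806c08807608807e88801da0600c984011088086984015982000)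
noncomputable def CO0_2 : Nat := (nat_lit 0x2a80302a80202a7440297840290c40288840288820280c40269c40265420265410255840255820255810251c40249c40241c4016ac40166440166420166410156820156800152c4014ac40142c4012b04012744011784011003011002010b8401004401004301004200aa0400aa0200a7440097840092c4008a82008a800082c4002b04002744001784001104001103001102000b84000142000141)
noncomputable def Y0_2_1_0 : Nat := (nat_lit 0xff80000000400000003c80000000000000000ff80000000000000003fe0000000000000000ff80000000000000003c00000000000000000f400000000200000003f0000000000)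
noncomputable def Y0_2_2_3 : Nat := (nat_lit 0x3fe0000000000000000ff80000000000000003c60000000000000000c180000002000000003060000000000000000ff80000000000000003fe0000000080000000c3800000020000000031e000000008)
noncomputable def Y0_2_4_5 : Nat := (nat_lit 0x3e00000000000000000e800000000000000003a00000000000000007f800000020000000007a00000000000000001e80000000000000001fe00000008000000007f80000002000000001fe000000080)
noncomputable def C0_2 : Cd := (Cd.mk (nat_lit 52) (nat_lit 6) (nat_lit 546) SI0_2 SW0_2 RV0_2 CO0_2 (Sl.cons (Sd.mk (nat_lit 0) (nat_lit 0) (nat_lit 0) (nat_lit 9) (Sb.cons (nat_lit 0) (nat_lit 0) (nat_lit 3) (Sb.cons (nat_lit 4) (nat_lit 3) (nat_lit 4) (Sb.cons (nat_lit 8) (nat_lit 7) (nat_lit 2) Sb.nil))) (Bl.c Y0_2_1_0 (nat_lit 16) (nat_lit 1) Bl.nil)) (Sl.cons (Sd.mk (nat_lit 2) (nat_lit 0) (nat_lit 9) (nat_lit 8) (Sb.cons (nat_lit 0) (nat_lit 0) (nat_lit 3) (Sb.cons (nat_lit 4) (nat_lit 3) (nat_lit 2) (Sb.cons (nat_lit 8) (nat_lit 5) (nat_lit 3) Sb.nil))) (Bl.r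 Y0_2_1_0 (nat_lit 0) Bl.nil)) (Sl.cons (Sd.mk (nat_lit 4) (nat_lit 4) (nat_lit 17) (nat_lit 9) (Sb.cons (nat_lit 0) (nat_lit 0) (nat_lit 4) (Sb.cons (nat_lit 4) (nat_lit 4) (nat_lit 3) (Sb.cons (nat_lit 8) (nat_lit 7) (nat_lit 2) Sb.nil))) (Bl.r Y0_2_2_3 (nat_lit 3) Bl.nil)) (Sl.cons (Sd.mk (nat_lit 5) (nat_lit 4) (nat_lit 26) (nat_lit 9) (Sb.cons (nat_lit 0) (nat_lit 0) (nat_lit 2) (Sb.cons (nat_lit 4) (nat_lit 2) (nat_lit 3) (Sb.cons (nat_lit 8) (nat_lit 5) (nat_lit 4) Sb.nil))) (Bl.c Y0_2_2_3 (nat_lit 18) (nat_lit 2) Bl.nil)) (Sl.cons (Sd.mk (nat_lit 9) (nat_lit 8) (nat_lit 35) (nat_lit 9) (Sb.cons (nat_lit 0) (nat_lit 0) (nat_lit 2) (Sb.cons (nat_lit 4) (nat_lit 2) (nat_lit 4) (Sb.cons (nat_lit 8) (nat_lit 6) (nat_lit 3) Sb.nil))) (Bl.r Y0_2_4_5 (nat_lit 5) Bl.nil)) (Sl.cons (Sd.mk (nat_lit 10) (nat_lit 8) (nat_lit 44) (nat_lit 8) (Sb.cons (nat_lit 0) (nat_lit 0) (nat_lit 3) (Sb.cons (nat_lit 4) (nat_lit 3) (nat_lit 2) (Sb.cons (nat_lit 8) (nat_lit 5) (nat_lit 3) Sb.nil)))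 (Bl.c Y0_2_4_5 (nat_lit 18) (nat_lit 4) Bl.nil)) Sl.nil)))))))
noncomputable def SI0_3 : Nat := (nat_lit 0xc030080200802004010040100400000000000000000)
noncomputable def SW0_3 : Nat := (nat_lit 0x160060050014008003008803c012008001004001c00d006001c002000)
noncomputable def RV0_3 : Nat := (nat_lit 0x8805108804708808a0880012060041840040880a808806118403310000508805f08807f88801ea0600d984012088087984016982001)
noncomputable def CO0_3 : Nat := (nat_lit 0x14ac40142c4010b840100440100430100420097840092c4008a82008a800082c4001784001104001103001102000b84000142000141)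
noncomputable def Y0_3_1_0 : Nat := (nat_lit 0xe000000000000000003800000001c0000000c800000002000000003200000000000000000de00000004f)
noncomputable def Y0_3_2_3 : Nat := (nat_lit 0x1800000000c0000000060000000030000000000000000000000000006000000003)
noncomputable def C0_3 : Cd := (Cd.mk (nat_lit 18) (nat_lit 7) (nat_lit 22) SI0_3 SW0_3 RV0_3 CO0_3 (Sl.cons (Sd.mk (nat_lit 0) (nat_lit 0) (nat_lit 0) (nat_lit 7) (Sb.cons (nat_lit 0) (nat_lit 0) (nat_lit 3) (Sb.cons (nat_lit 4) (nat_lit 3) (nat_lit 4) Sb.nil)) (Bl.c Y0_3_1_0 (nat_lit 10) (nat_lit 1) Bl.nil)) (Sl.cons (Sd.mk (nat_lit 2) (nat_lit 0) (nat_lit 7) (nat_lit 5) (Sb.cons (nat_lit 0) (nat_lit 0) (nat_lit 3) (Sb.cons (nat_lit 4) (nat_lit 3) (nat_lit 2) Sb.nil)) (Bl.r Y0_3_1_0 (nat_lit 0) Bl.nil)) (Sl.cons (Sd.mk (nat_lit 4) (nat_lit 4) (nat_lit 12) (nat_lit 4) (Sb.cons (nat_lit 0) (nat_lit 0) (nat_lit 4) Sb.nil) (Bl.r Y0_3_2_3 (nat_lit 3) Bl.nil)) (Sl.cons (Sd.mk (nat_lit 5) (nat_lit 4) (nat_lit 16) (nat_lit 2) (Sb.cons (nat_lit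 0) (nat_lit 0) (nat_lit 2) Sb.nil) (Bl.c Y0_3_2_3 (nat_lit 8) (nat_lit 2) Bl.nil)) Sl.nil)))))
noncomputable def SI0_4 : Nat := (nat_lit 0x2008020080200802008020080200802008020080200802008020080200801c0701c0701c0701c0701c0701c0701806018060180601806018060180601806018060180601806018060180601806018060180601806018060180601405014050140501405014050140501405014050140401004010040100401004010040100401004010040100401004010040100400c0300c0300c0300c0300c0300c0300c0300c0300c0300c0300c0300c020080200802008020080200802008010040100401004010040100401004010040100401000000000000000000000000000000)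
noncomputable def SW0_4 : Nat := (nat_lit 0xd206802b01600aa054029815c0a405102800f407e03c01d80f8074039014009c03801b00580280ce0660278138070037013009403401900480200c606503101840c006402f817809604d0250124098048023811806803601980c806203501800bc04802300b006002a014009805c02401100380181620b004c8260118088046822c114089043821805c022008003c00a0ae05502bc15a0ac05582a41500a704b8258108081042820c10408003f81f805a02c015808401c004052828814c0a4051828414009504a01f00f007d03d81e80f207703b017408a044021803400609f04f024c12407503a017008400c001000400009d04e024412007203701cc0e207003781b40d805b02d010405402004d826811e08e03581a80b2040014807c03c01d)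
noncomputable def RV0_4 : Nat := (nat_lit 0x8806908801c0880a608806708805d18403018201108801a08800d20600b18400d0880af08806618403110000308801908800e18400e08806508801808806808801b08806408801708805808803f08804f08803808804e08803708804d08803608805708803e08804c088035088073888028888020a0600f98401408800b20600218400208807d88802698401798200208800908800320600618400608808588802588802198401898200308800808800418400788802408800708808d88802788802298401998200408800a0880051840088880230880060880b108809d0880ae0880a508809f08809b08801608800c20600a18400c2060071840090880ad08801508801018401008801208809908809108803d08802e18402218200b08802a20601118401b08809708809508809308808f08803418401c18200508802920601018401a08802d18402118200a08803308803a08803008809808809008805618402b10000208804118402408809608809408809208808e08804b08804218402518200c08804018402308805508804518402818200f08805208804808808c08807208808408807c08807508806b08807108807b08808b0880022060051840050880b008809c0880aa0880a208809e08809a08806308805c18402f18201008805918402c08805b18402e0880a10880a908806208808808806e08808108807808807408806a08806d08807708808088801fa0600e984013)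
noncomputable def CO0_4 : Nat := (nat_lit 0x3aac403a8c403a74403a6c403a64403a64203a64103a4c403a44403a44303a4420397840396c40396820396800394c40394840394820392c40390c4038ac40388c40382c40380c4036ac40369c40366c40365c40356c40355c40352c40351c4034ac40349c40342c40341c4032b040329c40329040329030329020328c40328030328020327440325c40325420325410324c40324440324430324420317840315c40315840315820315810314c40314840314820311c40310c4030b840309c40309840309820309810308c40308840308820301c40300c402bb8402bb0402b78402b74402b34402b30402b0c402b04402b04302b04202b00302b0020297840290c40288840288820280c4027b84027b040279c40279840279820279810279040279030279020277840277440273440273040271c40271420271410271040271030271020255840255820255810251c40249c40241c4017b84017b04017ac4017a82017a80017a04017a020177840177440173440173040172c4017244017242017241017204017202016ac4016644016642016641014ac40142c4013b84013b04013784013744013344013304012b04012744010b8401004401004301004200bb8400bb0400b78400b74400b34400b30400b2c400b24400b24200b24100b20400b20200aa0400aa0200a7440097840092c4003b84003b04003784003744003344003304002b04002744001784001104001103001102)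
noncomputable def Y0_4_1_0 : Nat := (nat_lit 0x7e00000000100000001f800000000c00000007e00000000100000001f800000000800000007e00000000200000001f800000000c00000007e00000000000000001f800000000000000007e00000000000000001f800000000000000007e00000000000000001f8000000000000001f9e0000005c00000007e78000000000000001f9e0000000000000007f80000000000000001fe0000000000)
noncomputable def Y0_4_2_3 : Nat := (nat_lit 0x1f800000000000000007e00000001000000001f800000000000000007e00000001000000001f800000004000000007e0000000100003fffe18000000000000ffff860000000000003ffffe0000000000000fffff80000000000003ffffe0000040920000fffff8000000000)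
noncomputable def Y0_4_4_5 : Nat := (nat_lit 0x3e00000000000000000f800000000000000003e00000000000000000f800000000000000003e00000000000000000f800000000000000003e00000000000000000f800000005800000003e00000000000000000f800000000000000003e00000000000000000f800000000000000003e00000000000000000f800000000000000003e00000000000000000f800000000000000003e00000000000000000f800000005800000003e00000000000000fff3800000050000003ffce00000014000000fff3800000050000003ffce00000000000000fffc000000000000003fff0000000000)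
noncomputable def Y0_4_6_6 : Nat := (nat_lit 0x204810000000000000000000000000000000000000000000000000000000000000000000000000000000000000001f17c400000000000002048100001024080000812040000000000000204810000000000000000000000000000000000000000000000000000000000000000000007c5f100000000000000812040000000000000204810000102408000081204000000000202000081000000000000000000000000000000000000000000000000000000000000000000000000000000000001f1e0007c410000000020200008100000000008080002040000000000000000000000000001f1e0007c4100000000202020400000000000000000000000000000000000000000000000000000000000000000000000000000000000001f1e1f100010000000020202040000000000008080810000000000000000000000000000001f1e1f1000100000000)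
noncomputable def Y0_4_7_7 : Nat := (nat_lit 0x15400000000000000000000000000000000001540000000000000000000000000000000001414000000000000000000000000000000000141400000000000000000000000000000000015400000000000000000000000000000000001540000000000)
noncomputable def Y0_4_8_8 : Nat := (nat_lit 0x8ea800000000000000000000000000000000008a80000000000000023aa00000000000000008a800000045400000022a00000000000000008a80000000000000000000000000000000000000000000000000000000000000000000000000000000000000082000a00000000000030f002800000000000082000a0000000000002080028001040014000000000000000000000000000000000000000000000000000000000030f002800000000000000000000000000000030f8e8000000000000000000000000000000030f8e80000000000000000000000000000)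
noncomputable def C0_4 : Cd := (Cd.mk (nat_lit 178) (nat_lit 4) (nat_lit 4369) SI0_4 SW0_4 RV0_4 CO0_4 (Sl.cons (Sd.mk (nat_lit 0) (nat_lit 0) (nat_lit 0) (nat_lit 12) (Sb.cons (nat_lit 4) (nat_lit 0) (nat_lit 4) (Sb.cons (nat_lit 8) (nat_lit 4) (nat_lit 2) (Sb.cons (nat_lit 12) (nat_lit 6) (nat_lit 6) Sb.nil))) (Bl.c Y0_4_1_0 (nat_lit 34) (nat_lit 1) Bl.nil)) (Sl.cons (Sd.mk (nat_lit 2) (nat_lit 0) (nat_lit 12) (nat_lit 17) (Sb.cons (nat_lit 4) (nat_lit 0) (nat_lit 2) (Sb.cons (nat_lit 8) (nat_lit 2) (nat_lit 3) (Sb.cons (nat_lit 12) (nat_lit 5) (nat_lit 12) Sb.nil))) (Bl.r Y0_4_1_0 (nat_lit 0) Bl.nil)) (Sl.cons (Sd.mk (nat_lit 4) (nat_lit 4) (nat_lit 29) (nat_lit 12) (Sb.cons (nat_lit 0) (nat_lit 0) (nat_lit 4) (Sb.cons (nat_lit 8) (nat_lit 4) (nat_lit 2) (Sb.cons (nat_lit 12) (nat_lit 6) (nat_lit 6) Sb.nil))) (Bl.r Y0_4_2_3 (nat_lit 3) Bl.nil)) (Sl.cons (Sd.mk (nat_lit 5) (nat_lit 4) (nat_lit 41) (nat_lit 23) (Sb.cons (nat_lit 0) (nat_lit 0) (nat_lit 2) (Sb.cons (nat_lit 8)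 (nat_lit 2) (nat_lit 4) (Sb.cons (nat_lit 12) (nat_lit 6) (nat_lit 17) Sb.nil))) (Bl.c Y0_4_2_3 (nat_lit 24) (nat_lit 2) Bl.nil)) (Sl.cons (Sd.mk (nat_lit 9) (nat_lit 8) (nat_lit 64) (nat_lit 25) (Sb.cons (nat_lit 0) (nat_lit 0) (nat_lit 2) (Sb.cons (nat_lit 4) (nat_lit 2) (nat_lit 4) (Sb.cons (nat_lit 12) (nat_lit 6) (nat_lit 19) Sb.nil))) (Bl.r Y0_4_4_5 (nat_lit 5) Bl.nil)) (Sl.cons (Sd.mk (nat_lit 10) (nat_lit 8) (nat_lit 89) (nat_lit 17) (Sb.cons (nat_lit 0) (nat_lit 0) (nat_lit 3) (Sb.cons (nat_lit 4) (nat_lit 3) (nat_lit 2) (Sb.cons (nat_lit 12) (nat_lit 5) (nat_lit 12) Sb.nil))) (Bl.c Y0_4_4_5 (nat_lit 50) (nat_lit 4) Bl.nil)) (Sl.cons (Sd.mk (nat_lit 12) (nat_lit 12) (nat_lit 106) (nat_lit 36) (Sb.cons (nat_lit 0) (nat_lit 0) (nat_lit 10) (Sb.cons (nat_lit 4) (nat_lit 10) (nat_lit 10) (Sb.cons (nat_lit 8) (nat_lit 20) (nat_lit 16) Sb.nil))) (Bl.r Y0_4_6_6 (nat_lit 6) (Bl.c Y0_4_6_6 (nat_lit 72) (nat_lit 6) Bl.nil))) (Sl.cons (Sd.mk (nat_lit 13) (nat_lit 12) (nat_lit 142)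 (nat_lit 12) (Sb.cons (nat_lit 0) (nat_lit 0) (nat_lit 4) (Sb.cons (nat_lit 4) (nat_lit 4) (nat_lit 4) (Sb.cons (nat_lit 8) (nat_lit 8) (nat_lit 4) Sb.nil))) (Bl.r Y0_4_7_7 (nat_lit 7) (Bl.c Y0_4_7_7 (nat_lit 24) (nat_lit 7) Bl.nil))) (Sl.cons (Sd.mk (nat_lit 14) (nat_lit 12) (nat_lit 154) (nat_lit 24) (Sb.cons (nat_lit 0) (nat_lit 0) (nat_lit 4) (Sb.cons (nat_lit 4) (nat_lit 4) (nat_lit 9) (Sb.cons (nat_lit 8) (nat_lit 13) (nat_lit 11) Sb.nil))) (Bl.r Y0_4_8_8 (nat_lit 8) (Bl.c Y0_4_8_8 (nat_lit 48) (nat_lit 8) Bl.nil))) Sl.nil))))))))))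
noncomputable def CL0 : Cl := (Cl.cons C0_0 (Cl.cons C0_1 (Cl.cons C0_2 (Cl.cons C0_3 (Cl.cons C0_4 Cl.nil)))))
noncomputable def ZL0_0 : Zl := (Zl.cons (nat_lit 0) (nat_lit 0) (nat_lit 0) (Zl.cons (nat_lit 0) (nat_lit 0) (nat_lit 5) (Zl.cons (nat_lit 17) (nat_lit 5) (nat_lit 9) (Zl.cons (nat_lit 12) (nat_lit 14) (nat_lit 4) (Zl.cons (nat_lit 29) (nat_lit 18) (nat_lit 12) Zl.nil)))))
noncomputable def ZZ0 : ZZ := (ZZ.cons ZL0_0 ZZ.nil)
noncomputable def SI1_0 : Nat := (nat_lit 0x400)
noncomputable def SW1_0 : Nat := (nat_lit 0x2000)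
noncomputable def RV1_0 : Nat := (nat_lit 0x184002184006)
noncomputable def CO1_0 : Nat := (nat_lit 0x2a802026542)
noncomputable def Y1_0_0_1 : Nat := (nat_lit 0x400)
noncomputable def C1_0 : Cd := (Cd.mk (nat_lit 2) (nat_lit 5) (nat_lit 1280) SI1_0 SW1_0 RV1_0 CO1_0 (Sl.cons (Sd.mk (nat_lit 9) (nat_lit 8) (nat_lit 0) (nat_lit 1) (Sb.cons (nat_lit 8) (nat_lit 0) (nat_lit 1) Sb.nil) (Bl.r Y1_0_0_1 (nat_lit 1) Bl.nil)) (Sl.cons (Sd.mk (nat_lit 10) (nat_lit 8) (nat_lit 1) (nat_lit 1) (Sb.cons (nat_lit 8) (nat_lit 0) (nat_lit 1) Sb.nil) (Bl.c Y1_0_0_1 (nat_lit 2) (nat_lit 0) Bl.nil)) Sl.nil)))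
noncomputable def SI1_1 : Nat := (nat_lit 0)
noncomputable def SW1_1 : Nat := (nat_lit 0)
noncomputable def RV1_1 : Nat := (nat_lit 0x206000)
noncomputable def CO1_1 : Nat := (nat_lit 0x11003)
noncomputable def C1_1 : Cd := (Cd.mk (nat_lit 1) (nat_lit 6) (nat_lit 336) SI1_1 SW1_1 RV1_1 CO1_1 (Sl.cons (Sd.mk (nat_lit 4) (nat_lit 4) (nat_lit 0) (nat_lit 1) (Sb.cons (nat_lit 4) (nat_lit 0) (nat_lit 1) Sb.nil) Bl.nil) Sl.nil))
noncomputable def SI1_2 : Nat := (nat_lit 0x140400c03008020080100000)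
noncomputable def SW1_2 : Nat := (nat_lit 0x12007004001800a0010000008008003)
noncomputable def RV1_2 : Nat := (nat_lit 0x20600708800c08800e100000206001206003184000100001a06009984003)
noncomputable def CO1_2 : Nat := (nat_lit 0x2a803025584016644015680011003010043010042008a80001103001102)
noncomputable def Y1_2_1_0 : Nat := (nat_lit 0x400)
noncomputable def Y1_2_2_3 : Nat := (nat_lit 0x8000080000400)
noncomputable def Y1_2_4_5 : Nat := (nat_lit 0x400)
noncomputable def C1_2 : Cd := (Cd.mk (nat_lit 10) (nat_lit 6) (nat_lit 546) SI1_2 SW1_2 RV1_2 CO1_2 (Sl.cons (Sd.mk (nat_lit 0) (nat_lit 0) (nat_lit 0) (nat_lit 2) (Sb.cons (nat_lit 4) (nat_lit 0) (nat_lit 2) Sb.nil) (Bl.c Y1_2_1_0 (nat_lit 2) (nat_lit 1) Bl.nil)) (Sl.cons (Sd.mk (nat_lit 2) (nat_lit 0) (nat_lit 2) (nat_lit 1) (Sb.cons (nat_lit 0) (nat_lit 0) (nat_lit 1) Sb.nil) (Bl.r Y1_2_1_0 (nat_lit 0) Bl.nil)) (Sl.cons (Sd.mk (nat_lit 4) (nat_lit 4) (nat_lit 3) (nat_lit 3) (Sb.cons (nat_lit 0) (nat_lit 0) (nat_lit 2) (Sb.cons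 (nat_lit 4) (nat_lit 2) (nat_lit 1) Sb.nil)) (Bl.r Y1_2_2_3 (nat_lit 3) Bl.nil)) (Sl.cons (Sd.mk (nat_lit 5) (nat_lit 4) (nat_lit 6) (nat_lit 2) (Sb.cons (nat_lit 4) (nat_lit 0) (nat_lit 1) (Sb.cons (nat_lit 8) (nat_lit 1) (nat_lit 1) Sb.nil)) (Bl.c Y1_2_2_3 (nat_lit 6) (nat_lit 2) Bl.nil)) (Sl.cons (Sd.mk (nat_lit 9) (nat_lit 8) (nat_lit 8) (nat_lit 1) (Sb.cons (nat_lit 4) (nat_lit 0) (nat_lit 1) Sb.nil) (Bl.r Y1_2_4_5 (nat_lit 5) Bl.nil)) (Sl.cons (Sd.mk (nat_lit 10) (nat_lit 8) (nat_lit 9) (nat_lit 1) (Sb.cons (nat_lit 8) (nat_lit 0) (nat_lit 1) Sb.nil) (Bl.c Y1_2_4_5 (nat_lit 2) (nat_lit 4) Bl.nil)) Sl.nil)))))))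
noncomputable def SI1_3 : Nat := (nat_lit 0x3008020080100401000000000000000)
noncomputable def SW1_3 : Nat := (nat_lit 0x5004001000600b003800801800a0048018002000)
noncomputable def RV1_3 : Nat := (nat_lit 0x8801008801c08800018400108801318400908801208801a88800898400408801b984005982000)
noncomputable def CO1_3 : Nat := (nat_lit 0x142c4010b840100440100420092c4008a820082c4001784001104001102000b84000142000141)
noncomputable def Y1_3_1_0 : Nat := (nat_lit 0x1c04040000bc24)
noncomputable def Y1_3_2_3 : Nat := (nat_lit 0x4010040000400)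
noncomputable def C1_3 : Cd := (Cd.mk (nat_lit 13) (nat_lit 7) (nat_lit 22) SI1_3 SW1_3 RV1_3 CO1_3 (Sl.cons (Sd.mk (nat_lit 0) (nat_lit 0) (nat_lit 0) (nat_lit 6) (Sb.cons (nat_lit 0) (nat_lit 0) (nat_lit 3) (Sb.cons (nat_lit 4) (nat_lit 3) (nat_lit 3) Sb.nil)) (Bl.c Y1_3_1_0 (nat_lit 6) (nat_lit 1) Bl.nil)) (Sl.cons (Sd.mk (nat_lit 2) (nat_lit 0) (nat_lit 6) (nat_lit 3) (Sb.cons (nat_lit 0) (nat_lit 0) (nat_lit 2) (Sb.cons (nat_lit 4) (nat_lit 2) (nat_lit 1) Sb.nil)) (Bl.r Y1_3_1_0 (nat_lit 0) Bl.nil)) (Sl.cons (Sd.mk (nat_lit 4) (nat_lit 4) (nat_lit 9) (nat_lit 3) (Sb.cons (nat_lit 0) (nat_lit 0) (nat_lit 3) Sb.nil) (Bl.r Y1_3_2_3 (nat_lit 3) Bl.nil)) (Sl.cons (Sd.mk (nat_lit 5) (nat_lit 4) (nat_lit 12) (nat_lit 1) (Sb.cons (nat_lit 0) (nat_lit 0) (nat_lit 1) Sb.nil) (Bl.c Y1_3_2_3 (nat_lit 6) (nat_lit 2) Bl.nil)) Sl.nil)))))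
noncomputable def SI1_4 : Nat := (nat_lit 0x1c0701c060180601806018060180601405014040100400c03008020080200401004010000000000)
noncomputable def SW1_4 : Nat := (nat_lit 0x5801c0060130090040014009003001400400100e006c00801a006803001e00e00f806403000000f005c02c01100e8054028008)
noncomputable def RV1_4 : Nat := (nat_lit 0x88006088007088005a0600b20600220600588800a08800288800b08800388800908800120600820600608800420600c08800d18400708800f18400808801708801908801520600408801e08801f08801d088011088016088018088014a0600a)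
noncomputable def CO1_4 : Nat := (nat_lit 0x390c40388c40380c40329030328030324430311c40310c40309c40308c40301c40300c402b04302b003028884027103025584025582016644016642013b0401334401330401004300bb0400b34400b30400aa04003b04003344003304001103)
noncomputable def Y1_4_1_0 : Nat := (nat_lit 0x400004010040103800)
noncomputable def Y1_4_2_3 : Nat := (nat_lit 0x800008000080000401)
noncomputable def Y1_4_4_5 : Nat := (nat_lit 0x4000180001806)
noncomputable def Y1_4_6_6 : Nat := (nat_lit 0xa8080a800000004000000000401000000040000)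
noncomputable def C1_4 : Cd := (Cd.mk (nat_lit 32) (nat_lit 4) (nat_lit 4369) SI1_4 SW1_4 RV1_4 CO1_4 (Sl.cons (Sd.mk (nat_lit 0) (nat_lit 0) (nat_lit 0) (nat_lit 4) (Sb.cons (nat_lit 4) (nat_lit 0) (nat_lit 1) (Sb.cons (nat_lit 12) (nat_lit 1) (nat_lit 3) Sb.nil)) (Bl.c Y1_4_1_0 (nat_lit 8) (nat_lit 1) Bl.nil)) (Sl.cons (Sd.mk (nat_lit 2) (nat_lit 0) (nat_lit 4) (nat_lit 4) (Sb.cons (nat_lit 8) (nat_lit 0) (nat_lit 1) (Sb.cons (nat_lit 12) (nat_lit 1) (nat_lit 3) Sb.nil)) (Bl.r Y1_4_1_0 (nat_lit 0) Bl.nil)) (Sl.cons (Sd.mk (nat_lit 4) (nat_lit 4) (nat_lit 8) (nat_lit 4) (Sb.cons (nat_lit 0) (nat_lit 0) (nat_lit 1) (Sb.cons (nat_lit 12) (nat_lit 1) (nat_lit 3) Sb.nil)) (Bl.r Y1_4_2_3 (nat_lit 3) Bl.nil)) (Sl.cons (Sd.mk (nat_lit 5) (nat_lit 4) (nat_lit 12) (nat_lit 2) (Sb.cons (nat_lit 8) (nat_lit 0) (nat_lit 2) Sb.nil) (Bl.c Y1_4_2_3 (nat_lit 8) (nat_lit 2) Bl.nil)) (Sl.cons (Sd.mk (nat_lit 9) (nat_lit 8) (nat_lit 14) (nat_lit 3) (Sb.cons (nat_lit 4) (nat_lit 0) (nat_lit 2) (Sb.cons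 (nat_lit 12) (nat_lit 2) (nat_lit 1) Sb.nil)) (Bl.r Y1_4_4_5 (nat_lit 5) Bl.nil)) (Sl.cons (Sd.mk (nat_lit 10) (nat_lit 8) (nat_lit 17) (nat_lit 3) (Sb.cons (nat_lit 0) (nat_lit 0) (nat_lit 1) (Sb.cons (nat_lit 12) (nat_lit 1) (nat_lit 2) Sb.nil)) (Bl.c Y1_4_4_5 (nat_lit 6) (nat_lit 4) Bl.nil)) (Sl.cons (Sd.mk (nat_lit 12) (nat_lit 12) (nat_lit 20) (nat_lit 9) (Sb.cons (nat_lit 0) (nat_lit 0) (nat_lit 4) (Sb.cons (nat_lit 4) (nat_lit 4) (nat_lit 2) (Sb.cons (nat_lit 8) (nat_lit 6) (nat_lit 3) Sb.nil))) (Bl.r Y1_4_6_6 (nat_lit 6) (Bl.c Y1_4_6_6 (nat_lit 18) (nat_lit 6) Bl.nil))) (Sl.cons (Sd.mk (nat_lit 14) (nat_lit 12) (nat_lit 29) (nat_lit 3) (Sb.cons (nat_lit 0) (nat_lit 0) (nat_lit 2) (Sb.cons (nat_lit 4) (nat_lit 2) (nat_lit 1) Sb.nil)) Bl.nil) Sl.nil)))))))))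
noncomputable def CL1 : Cl := (Cl.cons C1_0 (Cl.cons C1_1 (Cl.cons C1_2 (Cl.cons C1_3 (Cl.cons C1_4 Cl.nil)))))
noncomputable def AL1_0 : Nat := (nat_lit 0x1a)
noncomputable def A41_0 : Nat := (nat_lit 0x12)
noncomputable def IX1_0 : Nat := (nat_lit 0x10000000000000000000000000000000000000000000000000000)
noncomputable def OL1_0 : Nat := (nat_lit 0x80004)
noncomputable def AL1_1 : Nat := (nat_lit 0x402)
noncomputable def A41_1 : Nat := (nat_lit 0x2)
noncomputable def IX1_1 : Nat := (nat_lit 0)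
noncomputable def OL1_1 : Nat := (nat_lit 0x4)
noncomputable def AL1_2 : Nat := (nat_lit 0x8013a204f0418)
noncomputable def A41_2 : Nat := (nat_lit 0x8010220460418)
noncomputable def IX1_2 : Nat := (nat_lit 0x9000000000000000000000000000000000000000000000000000000000000000000000000000000000000000000000000000000000000000000000000000000000000000000000080000000000000000000000000000000000000000000000000000000000000000000000000000000000000000007000000000000000000000000000000000000000000000000000600000000000000000000000000000000000000000000000000000000000000000000000000000000000000000050000000000000000000000000000000000000000000000000004000000000000300000000000000000000000000000000000000000000000000000000000000000000000000000000000000000020000000000000000000000000000000000000000000000000000000000000000000000000000010000000000000000000000000000000000000000000000000000)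
noncomputable def OL1_2 : Nat := (nat_lit 0x6600a0010801d002c0048008800a0008000c)
noncomputable def AL1_3 : Nat := (nat_lit 0x3d6ef)
noncomputable def A41_3 : Nat := (nat_lit 0x1d6ef)
noncomputable def IX1_3 : Nat := (nat_lit 0xc000000000000b000000000000a00000000000000000000000009000000000000000000000000080000000000007000000000000000000000000060000000000005000000000000400000000000000000000000003000000000000200000000000010000000000000)
noncomputable def OL1_3 : Nat := (nat_lit 0x40007800e001800280048007000c0014001800200020000)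
noncomputable def AL1_4 : Nat := (nat_lit 0x1240c5400048091344c02ac0200b80204b0b85f8105c3)
noncomputable def A41_4 : Nat := (nat_lit 0x5400048080344c02880000b000003098498104c2)
noncomputable def IX1_4 : Nat := (nat_lit 0x1f0000000000000000000000001e0000000000000000000000001d000000000000000000000000000000000000000000000000000000000000000000000000000000000000000000000000000000000000000000000000000000000000000000000000000000000000000000000000000000000000000000000000000000000000001c00000000000000000000000000000000000001b0000000000000000000000000000000000000000000000000000000000000000000000000000000000000000000000000000001a0000000000000000000000000000000000000000000000000000000000000000000000000000000000000000000000000000000000000000000000000000000019000000000001800000000000000000000000017000000000000000000000000000000000000000000000000001600000000000000000000000000000000000001500000000000140000000000000000000000000000000000000000000000000000000000000000000000000000000000000000000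00000000000000000000000013000000000000000000000000120000000000000000000000000000000000000000000000000011000000000000000000000000000000000000000000000000000000000000000000000000000000000000000000000000000000000000000000000000000000000000000000000000000000000000000000000000000000000000000000000000000000000000000000000000000000000000000000000000000000000000000000100000000000000000000000000f000000000000e0000000000000000000000000000000000000000000000000000000000000000000000000000000000000000000000000000000000000000000000000000000000000000000000000000000000000000000000000000000000000000000000000000000000000000000000000000000000000000000000000000000000000000000000000000000000000000000000000000000000d000000000000c0000000000000000000000000000000000000000000000000000000000000000b00000000000000000000000000000000000000a000000000000900000000000000000000000000000000000000000000000000000000000000008000000000000000000000000000000000000007000000000000000000000000000000000000006000000000000500000000000000000000000000000000000000000000000000000000000000000000000000000000000000000040000000000000000000000000000000000000000000000000000000000000000000000000000030000000000000000000000000000000000000020000000000001000000000000000000000000000000000000000000000000000000000000000000000000000000)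
noncomputable def OL1_4 : Nat := (nat_lit 0x4f009c01340228043807f00ea01d0039006e00d601a8030805f00b6011c0228044005a00b001380240046007800d8018002e00400050007000c0004)
noncomputable def TL1 : Tl := (Tl.cons (Tr.mk AL1_0 A41_0 IX1_0 OL1_0) (Tl.cons (Tr.mk AL1_1 A41_1 IX1_1 OL1_1) (Tl.cons (Tr.mk AL1_2 A41_2 IX1_2 OL1_2) (Tl.cons (Tr.mk AL1_3 A41_3 IX1_3 OL1_3) (Tl.cons (Tr.mk AL1_4 A41_4 IX1_4 OL1_4) Tl.nil)))))
noncomputable def ZL1_0 : Zl := (Zl.cons (nat_lit 0) (nat_lit 0) (nat_lit 2) (Zl.cons (nat_lit 0) (nat_lit 0) (nat_lit 1) (Zl.cons (nat_lit 0) (nat_lit 0) (nat_lit 10) (Zl.cons (nat_lit 0) (nat_lit 0) (nat_lit 13) (Zl.cons (nat_lit 0) (nat_lit 0) (nat_lit 32) Zl.nil)))))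
noncomputable def ZZ1 : ZZ := (ZZ.cons ZL1_0 ZZ.nil)
noncomputable def C2_0 : Cd := (Cd.mk (nat_lit 0) (nat_lit 5) (nat_lit 1280) (nat_lit 0) (nat_lit 0) (nat_lit 0) (nat_lit 0) Sl.nil)
noncomputable def C2_1 : Cd := (Cd.mk (nat_lit 0) (nat_lit 6) (nat_lit 336) (nat_lit 0) (nat_lit 0) (nat_lit 0) (nat_lit 0) Sl.nil)
noncomputable def C2_2 : Cd := (Cd.mk (nat_lit 0) (nat_lit 6) (nat_lit 546) (nat_lit 0) (nat_lit 0) (nat_lit 0) (nat_lit 0) Sl.nil)
noncomputable def SI2_3 : Nat := (nat_lit 0x80100400)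
noncomputable def SW2_3 : Nat := (nat_lit 0x1000c000001)
noncomputable def RV2_3 : Nat := (nat_lit 0x88003088001088000088002)
noncomputable def CO2_3 : Nat := (nat_lit 0x10b840092c40082c4000b84)
noncomputable def Y2_3_1_0 : Nat := (nat_lit 0x208)
noncomputable def C2_3 : Cd := (Cd.mk (nat_lit 4) (nat_lit 7) (nat_lit 22) SI2_3 SW2_3 RV2_3 CO2_3 (Sl.cons (Sd.mk (nat_lit 0) (nat_lit 0) (nat_lit 0) (nat_lit 1) (Sb.cons (nat_lit 0) (nat_lit 0) (nat_lit 1) Sb.nil) (Bl.c Y2_3_1_0 (nat_lit 4) (nat_lit 1) Bl.nil)) (Sl.cons (Sd.mk (nat_lit 2) (nat_lit 0) (nat_lit 1) (nat_lit 2) (Sb.cons (nat_lit 0) (nat_lit 0) (nat_lit 1) (Sb.cons (nat_lit 4) (nat_lit 1) (nat_lit 1) Sb.nil)) (Bl.r Y2_3_1_0 (nat_lit 0) Bl.nil)) (Sl.cons (Sd.mk (nat_lit 4) (nat_lit 4) (nat_lit 3) (nat_lit 1) (Sb.cons (nat_lit 0) (nat_lit 0) (nat_lit 1) Sb.nil) Bl.nil) Sl.nil))))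
noncomputable def SI2_4 : Nat := (nat_lit 0x40100000)
noncomputable def SW2_4 : Nat := (nat_lit 0x8000006002)
noncomputable def RV2_4 : Nat := (nat_lit 0xa06003206000206002206001)
noncomputable def CO2_4 : Nat := (nat_lit 0x3290303280302b04302b003)
noncomputable def C2_4 : Cd := (Cd.mk (nat_lit 4) (nat_lit 4) (nat_lit 4369) SI2_4 SW2_4 RV2_4 CO2_4 (Sl.cons (Sd.mk (nat_lit 10) (nat_lit 8) (nat_lit 0) (nat_lit 2) (Sb.cons (nat_lit 12) (nat_lit 0) (nat_lit 2) Sb.nil) Bl.nil) (Sl.cons (Sd.mk (nat_lit 12) (nat_lit 12) (nat_lit 2) (nat_lit 2) (Sb.cons (nat_lit 8) (nat_lit 0) (nat_lit 2) Sb.nil) Bl.nil) Sl.nil)))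
noncomputable def CL2 : Cl := (Cl.cons C2_0 (Cl.cons C2_1 (Cl.cons C2_2 (Cl.cons C2_3 (Cl.cons C2_4 Cl.nil)))))
noncomputable def AL2_0 : Nat := (nat_lit 0)
noncomputable def A42_0 : Nat := (nat_lit 0)
noncomputable def IX2_0 : Nat := (nat_lit 0)
noncomputable def OL2_0 : Nat := (nat_lit 0)
noncomputable def AL2_1 : Nat := (nat_lit 0)
noncomputable def A42_1 : Nat := (nat_lit 0)
noncomputable def IX2_1 : Nat := (nat_lit 0)
noncomputable def OL2_1 : Nat := (nat_lit 0)
noncomputable def AL2_2 : Nat := (nat_lit 0)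
noncomputable def A42_2 : Nat := (nat_lit 0)
noncomputable def IX2_2 : Nat := (nat_lit 0)
noncomputable def OL2_2 : Nat := (nat_lit 0)
noncomputable def AL2_3 : Nat := (nat_lit 0x1964)
noncomputable def A42_3 : Nat := (nat_lit 0x944)
noncomputable def IX2_3 : Nat := (nat_lit 0x300000000000000000000000000000000000000200000000000000000000000001000000000000000000000000000000000000000000000000000000000000000000000000000000)
noncomputable def OL2_3 : Nat := (nat_lit 0x58008000c0008)
noncomputable def AL2_4 : Nat := (nat_lit 0x18cc5161)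
noncomputable def A42_4 : Nat := (nat_lit 0x180c0000)
noncomputable def IX2_4 : Nat := (nat_lit 0x30000000000002000000000000000000000000000000000000000000000000000000000000000000000000000000000000000000000000000000010000000000000000000000000000000000000000000000000000000000000000000000000000000000000000000000000000000000000000000000000000000000000000000000000000000000000000000000000000000000000000000000000000000000000000000000000000000000000000000000000000000)
noncomputable def OL2_4 : Nat := (nat_lit 0xe001b00260048)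
noncomputable def TL2 : Tl := (Tl.cons (Tr.mk AL2_0 A42_0 IX2_0 OL2_0) (Tl.cons (Tr.mk AL2_1 A42_1 IX2_1 OL2_1) (Tl.cons (Tr.mk AL2_2 A42_2 IX2_2 OL2_2) (Tl.cons (Tr.mk AL2_3 A42_3 IX2_3 OL2_3) (Tl.cons (Tr.mk AL2_4 A42_4 IX2_4 OL2_4) Tl.nil)))))
noncomputable def ZL2_0 : Zl := (Zl.cons (nat_lit 0) (nat_lit 0) (nat_lit 0) (Zl.cons (nat_lit 0) (nat_lit 0) (nat_lit 0) (Zl.cons (nat_lit 0) (nat_lit 0) (nat_lit 0) (Zl.cons (nat_lit 3) (nat_lit 0) (nat_lit 1) (Zl.cons (nat_lit 0) (nat_lit 0) (nat_lit 0) Zl.nil)))))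
noncomputable def ZZ2 : ZZ := (ZZ.cons ZL2_0 ZZ.nil)
def wf0_0 : wfC (nat_lit 37) (nat_lit 2) C0_0 = true := by decide +kernel
def pl0_0 : plCk (nat_lit 37) (nat_lit 2) (nat_lit 11) (nat_lit 0) (nat_lit 0) (nat_lit 7) (nat_lit 5) (nat_lit 4) (nat_lit 0) nl0 CL0 = true := by decide +kernel
def wf0_1 : wfC (nat_lit 37) (nat_lit 2) C0_1 = true := by decide +kernel
def pl0_1 : plCk (nat_lit 37) (nat_lit 2) (nat_lit 11) (nat_lit 0) (nat_lit 0) (nat_lit 7) (nat_lit 5) (nat_lit 4) (nat_lit 1) nl0 CL0 = true := by decide +kernel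
def wf0_2 : wfC (nat_lit 37) (nat_lit 2) C0_2 = true := by decide +kernel
def pl0_2 : plCk (nat_lit 37) (nat_lit 2) (nat_lit 11) (nat_lit 0) (nat_lit 0) (nat_lit 7) (nat_lit 5) (nat_lit 4) (nat_lit 2) nl0 CL0 = true := by decide +kernel
def wf0_3 : wfC (nat_lit 37) (nat_lit 2) C0_3 = true := by decide +kernel
def pl0_3 : plCk (nat_lit 37) (nat_lit 2) (nat_lit 11) (nat_lit 0) (nat_lit 0) (nat_lit 7) (nat_lit 5) (nat_lit 4) (nat_lit 3) nl0 CL0 = true := by decide +kernel
def wf0_4 : wfC (nat_lit 37) (nat_lit 2) C0_4 = true := by decide +kernel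
def pl0_4 : plCk (nat_lit 37) (nat_lit 2) (nat_lit 11) (nat_lit 0) (nat_lit 0) (nat_lit 7) (nat_lit 5) (nat_lit 4) (nat_lit 4) nl0 CL0 = true := by decide +kernel
def ti0_0 : tileCk (nat_lit 37) (nat_lit 2) (nat_lit 1) (nat_lit 1) (nat_lit 30) (nat_lit 11) (nat_lit 5) ZL0_0 CL0 = true := by decide +kernel
def zl0_0 : zlOK (nat_lit 30) ZL0_0 = true := by decide +kernel
def tc0_0 : tiCov (nat_lit 1) (nat_lit 0) ZZ0 C0_0 = true := by decide +kernel
def tc0_1 : tiCov (nat_lit 1) (nat_lit 1) ZZ0 C0_1 = true := by decide +kernel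
def tc0_2 : tiCov (nat_lit 1) (nat_lit 2) ZZ0 C0_2 = true := by decide +kernel
def tc0_3 : tiCov (nat_lit 1) (nat_lit 3) ZZ0 C0_3 = true := by decide +kernel
def tc0_4 : tiCov (nat_lit 1) (nat_lit 4) ZZ0 C0_4 = true := by decide +kernel
def wf1_0 : wfC (nat_lit 10) (nat_lit 2) C1_0 = true := by decide +kernel
def rf1_0 : rfCk (nat_lit 37) (nat_lit 2) (nat_lit 10) (nat_lit 2) (nat_lit 9) (nat_lit 0) (nat_lit 0) TL1 CL0 CL1 = true := by decide +kernel
def st1_0_0 : starCk (nat_lit 10) (nat_lit 2) (nat_lit 1) (nat_lit 1) (nat_lit 1) (nat_lit 0) (nat_lit 256) C1_0 = true := by decide +kernel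
def sc1_0 : stCov (nat_lit 2) (nat_lit 0) (Rl.cons (nat_lit 0) (nat_lit 1) Rl.nil) C1_0 = true := by decide +kernel
def wf1_1 : wfC (nat_lit 10) (nat_lit 2) C1_1 = true := by decide +kernel
def rf1_1 : rfCk (nat_lit 37) (nat_lit 2) (nat_lit 10) (nat_lit 2) (nat_lit 9) (nat_lit 0) (nat_lit 1) TL1 CL0 CL1 = true := by decide +kernel
def sc1_1 : stCov (nat_lit 2) (nat_lit 0) Rl.nil C1_1 = true := by decide +kernel
def wf1_2 : wfC (nat_lit 10) (nat_lit 2) C1_2 = true := by decide +kernel
def rf1_2 : rfCk (nat_lit 37) (nat_lit 2) (nat_lit 10) (nat_lit 2) (nat_lit 9) (nat_lit 0) (nat_lit 2) TL1 CL0 CL1 = true := by decide +kernel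
def st1_2_0 : starCk (nat_lit 10) (nat_lit 2) (nat_lit 1) (nat_lit 1) (nat_lit 1) (nat_lit 2) (nat_lit 1) C1_2 = true := by decide +kernel
def sc1_2 : stCov (nat_lit 0) (nat_lit 2) (Rl.cons (nat_lit 2) (nat_lit 1) Rl.nil) C1_2 = true := by decide +kernel
def wf1_3 : wfC (nat_lit 10) (nat_lit 2) C1_3 = true := by decide +kernel
def rf1_3 : rfCk (nat_lit 37) (nat_lit 2) (nat_lit 10) (nat_lit 2) (nat_lit 9) (nat_lit 0) (nat_lit 3) TL1 CL0 CL1 = true := by decide +kernel
def st1_3_0 : starCk (nat_lit 10) (nat_lit 2) (nat_lit 1) (nat_lit 1) (nat_lit 3) (nat_lit 9) (nat_lit 16) C1_3 = true := by decide +kernel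
def sc1_3 : stCov (nat_lit 1) (nat_lit 9) (Rl.cons (nat_lit 9) (nat_lit 3) Rl.nil) C1_3 = true := by decide +kernel
def wf1_4 : wfC (nat_lit 10) (nat_lit 2) C1_4 = true := by decide +kernel
def rf1_4 : rfCk (nat_lit 37) (nat_lit 2) (nat_lit 10) (nat_lit 2) (nat_lit 9) (nat_lit 0) (nat_lit 4) TL1 CL0 CL1 = true := by decide +kernel
def st1_4_0 : starCk (nat_lit 10) (nat_lit 2) (nat_lit 1) (nat_lit 1) (nat_lit 3) (nat_lit 14) (nat_lit 256) C1_4 = true := by decide +kernel
def sc1_4 : stCov (nat_lit 2) (nat_lit 14) (Rl.cons (nat_lit 14) (nat_lit 3) Rl.nil) C1_4 = true := by decide +kernel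
def wf2_3 : wfC (nat_lit 3) (nat_lit 2) C2_3 = true := by decide +kernel
def rf2_3 : rfCk (nat_lit 10) (nat_lit 2) (nat_lit 3) (nat_lit 2) (nat_lit 9) (nat_lit 0) (nat_lit 3) TL2 CL1 CL2 = true := by decide +kernel
def wf2_4 : wfC (nat_lit 3) (nat_lit 2) C2_4 = true := by decide +kernel
def rf2_4 : rfCk (nat_lit 10) (nat_lit 2) (nat_lit 3) (nat_lit 2) (nat_lit 9) (nat_lit 0) (nat_lit 4) TL2 CL1 CL2 = true := by decide +kernel
def ti2_0 : tileCk (nat_lit 3) (nat_lit 2) (nat_lit 1) (nat_lit 1) (nat_lit 1) (nat_lit 11) (nat_lit 5) ZL2_0 CL2 = true := by decide +kernel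
def zl2_0 : zlOK (nat_lit 1) ZL2_0 = true := by decide +kernel
def tc2_3 : tiCov (nat_lit 1) (nat_lit 3) ZZ2 C2_3 = true := by decide +kernel
def tc2_4 : tiCov (nat_lit 1) (nat_lit 4) ZZ2 C2_4 = true := by decide +kernel
def de2_3 : deadCk (nat_lit 3) (nat_lit 2) C2_3 = true := by decide +kernel
def de2_4 : deadCk (nat_lit 3) (nat_lit 2) C2_4 = true := by decide +kernel
def sc0_0 : stCov (nat_lit 2) (nat_lit 0) (Rl.cons (nat_lit 0) (nat_lit 6) Rl.nil) C0_0 = true := by decide +kernel
def sc0_1 : stCov (nat_lit 1) (nat_lit 0) (Rl.cons (nat_lit 0) (nat_lit 18) Rl.nil) C0_1 = true := by decide +kernel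
def sc0_2 : stCov (nat_lit 0) (nat_lit 0) (Rl.cons (nat_lit 0) (nat_lit 52) Rl.nil) C0_2 = true := by decide +kernel
def sc0_3 : stCov (nat_lit 0) (nat_lit 0) (Rl.cons (nat_lit 0) (nat_lit 18) Rl.nil) C0_3 = true := by decide +kernel
def sc0_4 : stCov (nat_lit 0) (nat_lit 0) (Rl.cons (nat_lit 0) (nat_lit 178) Rl.nil) C0_4 = true := by decide +kernel
def zl1_0 : zlOK (nat_lit 32) ZL1_0 = true := by decide +kernel
def tc1_0 : tiCov (nat_lit 1) (nat_lit 0) ZZ1 C1_0 = true := by decide +kernel
def tc1_1 : tiCov (nat_lit 1) (nat_lit 1) ZZ1 C1_1 = true := by decide +kernel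
def tc1_2 : tiCov (nat_lit 1) (nat_lit 2) ZZ1 C1_2 = true := by decide +kernel
def tc1_3 : tiCov (nat_lit 1) (nat_lit 3) ZZ1 C1_3 = true := by decide +kernel
def tc1_4 : tiCov (nat_lit 1) (nat_lit 4) ZZ1 C1_4 = true := by decide +kernel
def wf2_0 : wfC (nat_lit 3) (nat_lit 2) C2_0 = true := by decide +kernel
def wf2_1 : wfC (nat_lit 3) (nat_lit 2) C2_1 = true := by decide +kernel
def wf2_2 : wfC (nat_lit 3) (nat_lit 2) C2_2 = true := by decide +kernel
def rf2_0 : rfCk (nat_lit 10) (nat_lit 2) (nat_lit 3) (nat_lit 2) (nat_lit 9) (nat_lit 0) (nat_lit 0) TL2 CL1 CL2 = true := by decide +kernel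
def rf2_1 : rfCk (nat_lit 10) (nat_lit 2) (nat_lit 3) (nat_lit 2) (nat_lit 9) (nat_lit 0) (nat_lit 1) TL2 CL1 CL2 = true := by decide +kernel
def rf2_2 : rfCk (nat_lit 10) (nat_lit 2) (nat_lit 3) (nat_lit 2) (nat_lit 9) (nat_lit 0) (nat_lit 2) TL2 CL1 CL2 = true := by decide +kernel
def sc2_0 : stCov (nat_lit 2) (nat_lit 0) Rl.nil C2_0 = true := by decide +kernel
def sc2_1 : stCov (nat_lit 1) (nat_lit 0) Rl.nil C2_1 = true := by decide +kernel
def sc2_2 : stCov (nat_lit 0) (nat_lit 0) Rl.nil C2_2 = true := by decide +kernel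
def sc2_3 : stCov (nat_lit 0) (nat_lit 0) (Rl.cons (nat_lit 0) (nat_lit 4) Rl.nil) C2_3 = true := by decide +kernel
def sc2_4 : stCov (nat_lit 0) (nat_lit 0) (Rl.cons (nat_lit 0) (nat_lit 4) Rl.nil) C2_4 = true := by decide +kernel
def tc2_0 : tiCov (nat_lit 1) (nat_lit 0) ZZ2 C2_0 = true := by decide +kernel
def tc2_1 : tiCov (nat_lit 1) (nat_lit 1) ZZ2 C2_1 = true := by decide +kernel
def tc2_2 : tiCov (nat_lit 1) (nat_lit 2) ZZ2 C2_2 = true := by decide +kernel
def de2_0 : deadCk (nat_lit 3) (nat_lit 2) C2_0 = true := by decide +kernel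
def de2_1 : deadCk (nat_lit 3) (nat_lit 2) C2_1 = true := by decide +kernel
def de2_2 : deadCk (nat_lit 3) (nat_lit 2) C2_2 = true := by decide +kernel

end Pool.Agent.NNr.R11_7_8_10
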